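import Pool.Agent.H82.LB.Targets
import Pool.Agent.H83.G.BRO

/-! MP_ee74d2_an, Lemma B: arrays in one ball of radius `R`. -/

set_option autoImplicit false

namespace Pool.Agent.H74.LB.BALL

open Pool.Agent.H83.G Pool.Agent.H83.G.TEN Pool.Agent.H83.G.BRO Pool.Agent.H82.LB MeasureTheory
  Set
open Pool.Agent.H22.G4 (nv Ind)
open scoped ENNReal NNReal RealInnerProductSpace

/-! ### numbers -/

/-- powers of `R` are large -/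
theorem big (c a : ℝ) (ha : 0 < a) : ∃ C : ℝ, 1 ≤ C ∧ ∀ R : ℝ, C ≤ R → c ≤ R ^ a := by
  have h1 : (1 : ℝ) ≤ max c 1 := le_max_right _ _
  refine ⟨(max c 1) ^ (1 / a), Real.one_le_rpow h1 (by positivity), fun R hR => ?_⟩
  have h2 : ((max c 1) ^ (1 / a)) ^ a ≤ R ^ a :=
    Real.rpow_le_rpow (by positivity) hR ha.le
  rw [← Real.rpow_mul (by linarith)] at h2
  have h3 : 1 / a * a = 1 := by field_simp
  rw [h3, Real.rpow_one] at h2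
  exact (le_max_left _ _).trans h2

theorem numX {X N H H' C9 R θ Y n : ℝ} (hn : 0 ≤ n) (hH' : 0 < H') (hN : 0 ≤ N) (hR : 0 < R)
    (hC9 : 0 ≤ C9) (h1 : X ≤ 4 * (n + 1) ^ 5 * N) (hH : H = 32 * (n + 1) ^ 4 * H')
    (hn2 : (n + 1) ^ 21 ≤ C9 * R ^ θ) (hY : N * H' ^ (10 / 3 : ℝ) ≤ Y) :
    X * H ^ (10 / 3 : ℝ) ≤ 2 ^ 22 * C9 * R ^ θ * Y := by
  have hb : 1 ≤ 32 * (n + 1) ^ 4 := by
    have : 1 ≤ (n + 1) ^ 4 := one_le_pow₀ (by linarith)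
    linarith
  have h2 : H ^ (10 / 3 : ℝ) ≤ (32 * (n + 1) ^ 4) ^ 4 * H' ^ (10 / 3 : ℝ) := by
    rw [hH, Real.mul_rpow (by positivity) hH'.le]
    have h3 : (32 * (n + 1) ^ 4) ^ (10 / 3 : ℝ) ≤ (32 * (n + 1) ^ 4) ^ (4 : ℝ) :=
      Real.rpow_le_rpow_of_exponent_le hb (by norm_num)
    have h4 : (32 * (n + 1) ^ 4) ^ (4 : ℝ) = (32 * (n + 1) ^ 4) ^ 4 := by
      rw [← Real.rpow_natCast]; norm_num
    rw [h4] at h3
    gcongr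
  have hY0 : 0 ≤ N * H' ^ (10 / 3 : ℝ) := by positivity
  calc X * H ^ (10 / 3 : ℝ)
      ≤ (4 * (n + 1) ^ 5 * N) * ((32 * (n + 1) ^ 4) ^ 4 * H' ^ (10 / 3 : ℝ)) := by
        have hHp : 0 ≤ H ^ (10 / 3 : ℝ) := by rw [hH]; positivity
        exact mul_le_mul h1 h2 hHp (by positivity)
    _ = 2 ^ 22 * (n + 1) ^ 21 * (N * H' ^ (10 / 3 : ℝ)) := by ring
    _ ≤ 2 ^ 22 * (C9 * R ^ θ) * Y := by gcongr
    _ = _ := by ring

/-- one end -/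
theorem caseO {R δ ε₁ θ c₀ C C9 CO CT CA T g A S e : ℝ} (hR1 : 1 ≤ R) (hδ : 0 < δ)
    (hθ : θ ≤ ε₁) (hg : 0 ≤ g) (hA : 0 < A) (he : 0 ≤ e) (hC9 : 0 ≤ C9) (hCO : 0 ≤ CO)
    (hT0 : 0 ≤ T) (hT : T ≤ CT) (hS0 : 0 ≤ S) (hS : S ≤ CA * e)
    (hC : 2 ^ 22 * C9 * CO * CT * CA ≤ C) (hC0 : 0 ≤ C) :
    2 ^ 22 * C9 * R ^ θ * (CO * R ^ (2 * lo 2 * δ) * T * g * A ^ (4 / 3 : ℝ) *
      R ^ (1 / 3 : ℝ) * S) ≤
      C * (R ^ (ε₁ + lb 2 * δ) * g + R ^ (lb 2 * δ - c₀ / 2)) * A ^ (4 / 3 : ℝ) *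
        R ^ (1 / 3 : ℝ) * e := by
  have hR0 : 0 < R := by linarith
  have hCT : 0 ≤ CT := hT0.trans hT
  have h1 : R ^ θ * R ^ (2 * lo 2 * δ) ≤ R ^ (ε₁ + lb 2 * δ) := by
    rw [← Real.rpow_add hR0]
    refine Real.rpow_le_rpow_of_exponent_le hR1 ?_
    have h2 : 2 * lo 2 ≤ lb 2 := by
      unfold lo lb
      norm_num
    nlinarith
  calc 2 ^ 22 * C9 * R ^ θ * (CO * R ^ (2 * lo 2 * δ) * T * g * A ^ (4 / 3 : ℝ) *
        R ^ (1 / 3 : ℝ) * S)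
      ≤ 2 ^ 22 * C9 * R ^ θ * (CO * R ^ (2 * lo 2 * δ) * CT * g * A ^ (4 / 3 : ℝ) *
        R ^ (1 / 3 : ℝ) * (CA * e)) := by gcongr
    _ = (2 ^ 22 * C9 * CO * CT * CA) * ((R ^ θ * R ^ (2 * lo 2 * δ)) * g) * A ^ (4 / 3 : ℝ) *
        R ^ (1 / 3 : ℝ) * e := by ring
    _ ≤ C * (R ^ (ε₁ + lb 2 * δ) * g) * A ^ (4 / 3 : ℝ) * R ^ (1 / 3 : ℝ) * e := by gcongr
    _ ≤ _ := by
        gcongr
        have : 0 ≤ R ^ (lb 2 * δ - c₀ / 2) := by positivity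
        linarith

/-- two ends -/
theorem caseT {R δ ε₁ θ c₀ C C9 CT CA D g A e M S : ℝ} (hR1 : 1 ≤ R) (hδ : 0 < δ)
    (hθ : θ ≤ δ) (hg : 0 ≤ g) (hA : 0 < A) (he : 0 ≤ e) (hC9 : 0 ≤ C9)
    (hCT : 0 ≤ CT) (hD : 1 ≤ D) (hM : M ^ 4 ≤ R ^ (c₀ / 4))
    (hc₀ : 0 < c₀) (hS0 : 0 ≤ S) (hS : S ≤ 4 * CA * e)
    (hC : 2 ^ 24 * C9 * CT * CA * D ^ 2 ≤ C) (hC0 : 0 ≤ C) :
    2 ^ 22 * C9 * R ^ θ * (M ^ 4 * (CT * R ^ (-c₀) * (D * A) ^ (4 / 3 : ℝ) *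
        R ^ (1 / 3 : ℝ) * S)) ≤
      C * (R ^ (ε₁ + lb 2 * δ) * g + R ^ (lb 2 * δ - c₀ / 2)) * A ^ (4 / 3 : ℝ) *
        R ^ (1 / 3 : ℝ) * e := by
  have hR0 : 0 < R := by linarith
  have h1 : R ^ θ * R ^ (c₀ / 4) * R ^ (-c₀) ≤ R ^ (lb 2 * δ - c₀ / 2) := by
    rw [← Real.rpow_add hR0, ← Real.rpow_add hR0]
    refine Real.rpow_le_rpow_of_exponent_le hR1 ?_
    have h2 : 1 ≤ lb 2 := by
      unfold lb
      norm_num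
    nlinarith
  have h2 : (D * A) ^ (4 / 3 : ℝ) ≤ D ^ 2 * A ^ (4 / 3 : ℝ) := by
    rw [Real.mul_rpow (by linarith) hA.le]
    have h3 : D ^ (4 / 3 : ℝ) ≤ D ^ (2 : ℝ) :=
      Real.rpow_le_rpow_of_exponent_le hD (by norm_num)
    rw [Real.rpow_two] at h3
    gcongr
  calc 2 ^ 22 * C9 * R ^ θ * (M ^ 4 * (CT * R ^ (-c₀) * (D * A) ^ (4 / 3 : ℝ) *
        R ^ (1 / 3 : ℝ) * S))
      ≤ 2 ^ 22 * C9 * R ^ θ * (R ^ (c₀ / 4) * (CT * R ^ (-c₀) * (D ^ 2 * A ^ (4 / 3 : ℝ)) *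
        R ^ (1 / 3 : ℝ) * (4 * CA * e))) := by gcongr
    _ = (2 ^ 24 * C9 * CT * CA * D ^ 2) * (R ^ θ * R ^ (c₀ / 4) * R ^ (-c₀)) *
        A ^ (4 / 3 : ℝ) * R ^ (1 / 3 : ℝ) * e := by ring
    _ ≤ C * R ^ (lb 2 * δ - c₀ / 2) * A ^ (4 / 3 : ℝ) * R ^ (1 / 3 : ℝ) * e := by gcongr
    _ ≤ _ := by
        gcongr
        have : 0 ≤ R ^ (ε₁ + lb 2 * δ) * g := by positivity
        linarith

theorem small2 {A H C7 C9 R θ n : ℝ} (hR : 1 ≤ R) (hA : 0 < A) (hAH : A ≤ H) (hC7 : 0 < C7)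
    (hC9 : 1 ≤ C9) (hθ : θ ≤ 1 / 2) (h : 32 * C9 * C7 ≤ R ^ (1 / 2 : ℝ)) (hn : 1 ≤ n)
    (hn2 : (n + 1) ^ 21 ≤ C9 * R ^ θ) :
    C7 * A * R ^ (-1 : ℝ) ≤ H / 2 / (8 * n ^ 2) / 2 := by
  have hR0 : 0 < R := by linarith
  have e1 : n ^ 2 ≤ (n + 1) ^ 21 := by
    calc n ^ 2 ≤ (n + 1) ^ 2 := by gcongr; linarith
      _ ≤ (n + 1) ^ 21 := pow_le_pow_right₀ (by linarith) (by norm_num)
  have e2 : H / 2 / (8 * n ^ 2) / 2 = H / (32 * n ^ 2) := by field_simp; ring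
  have hn0 : 0 < n := by linarith
  have e6 : R ^ θ ≤ R ^ (1 / 2 : ℝ) := Real.rpow_le_rpow_of_exponent_le hR hθ
  rw [e2, le_div_iff₀ (by positivity), Real.rpow_neg_one]
  have e3 : C7 * A * R⁻¹ * (32 * n ^ 2) ≤ C7 * A * R⁻¹ * (32 * (C9 * R ^ (1 / 2 : ℝ))) := by
    gcongr
    refine e1.trans (hn2.trans ?_)
    gcongr
  refine e3.trans ?_
  have e5 : R ^ (1 / 2 : ℝ) * R ^ (1 / 2 : ℝ) = R := by
    rw [← Real.rpow_add hR0]; norm_num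
  calc C7 * A * R⁻¹ * (32 * (C9 * R ^ (1 / 2 : ℝ)))
      = (32 * C9 * C7) * R ^ (1 / 2 : ℝ) * (R⁻¹ * A) := by ring
    _ ≤ R ^ (1 / 2 : ℝ) * R ^ (1 / 2 : ℝ) * (R⁻¹ * A) := by gcongr
    _ = A := by rw [e5]; field_simp
    _ ≤ H := hAH

theorem small3 {A H D C9 R δ θ n : ℝ} (hR : 1 ≤ R) (hA : 0 < A) (hAH : A ≤ H) (hD : 1 ≤ D)
    (hC9 : 1 ≤ C9) (h : 32 * D * C9 ≤ R ^ (δ / 2)) (hθ : θ ≤ δ / 2) (hn : 0 ≤ n)
    (hn2 : (n + 1) ^ 21 ≤ C9 * R ^ θ) :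
    1 * (D * A) ≤ R ^ δ * (H / (32 * (n + 1) ^ 4)) := by
  have hR0 : 0 < R := by linarith
  have e1 : (n + 1) ^ 4 ≤ (n + 1) ^ 21 := pow_le_pow_right₀ (by linarith) (by norm_num)
  have e6 : R ^ θ ≤ R ^ (δ / 2) := Real.rpow_le_rpow_of_exponent_le hR hθ
  have hH : 0 < H := by linarith
  rw [← mul_div_assoc, le_div_iff₀ (by positivity)]
  have e7 : (n + 1) ^ 4 ≤ C9 * R ^ (δ / 2) := by
    refine (e1.trans hn2).trans ?_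
    gcongr
  calc 1 * (D * A) * (32 * (n + 1) ^ 4) = (32 * D * (n + 1) ^ 4) * A := by ring
    _ ≤ (32 * D * (C9 * R ^ (δ / 2))) * H := by gcongr
    _ = (32 * D * C9) * R ^ (δ / 2) * H := by ring
    _ ≤ R ^ (δ / 2) * R ^ (δ / 2) * H := by gcongr
    _ = R ^ δ * H := by rw [← Real.rpow_add hR0]; congr 2; ring

theorem small6 {R δ A D CA CE e B : ℝ} (hR : 0 < R) (hCA : 0 ≤ CA)
    (hD : 1 ≤ D) (hD2 : 4 * CA * CE ≤ D) (hB : 1 ≤ B)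
    (he : e ≤ 4 * (CE * R ^ (lo 2 * δ) * (A ^ 2 * R ^ (4 : ℝ)))) :
    CA * e ≤ B * R ^ (lo 2 * δ) * ((D * A) ^ 2 * R ^ (4 : ℝ)) := by
  have e1 : D ≤ B * D ^ 2 := by nlinarith
  calc CA * e ≤ CA * (4 * (CE * R ^ (lo 2 * δ) * (A ^ 2 * R ^ (4 : ℝ)))) := by gcongr
    _ = (4 * CA * CE) * (R ^ (lo 2 * δ) * (A ^ 2 * R ^ (4 : ℝ))) := by ring
    _ ≤ (B * D ^ 2) * (R ^ (lo 2 * δ) * (A ^ 2 * R ^ (4 : ℝ))) :=
        mul_le_mul_of_nonneg_right (hD2.trans e1) (by positivity)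
    _ = _ := by ring

theorem small7 {R ε₀ C C9 n M θ : ℝ} (hR : 1 ≤ R) (hC9 : 1 ≤ C9) (hC : C9 ^ 2 ≤ C)
    (hM : C * M ^ 8 ≤ R ^ ε₀) (hθ : θ ≤ ε₀ / 2) (hn : 0 ≤ n)
    (hn2 : (n + 1) ^ 21 ≤ C9 * R ^ θ) : (n + 1) ^ 2 * M ^ 4 ≤ R ^ ε₀ := by
  have hR0 : 0 < R := by linarith
  have e1 : (n + 1) ^ 2 ≤ (n + 1) ^ 21 := pow_le_pow_right₀ (by linarith) (by norm_num)
  have e6 : R ^ θ ≤ R ^ (ε₀ / 2) := Real.rpow_le_rpow_of_exponent_le hR hθ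
  have e7 : (n + 1) ^ 2 ≤ C9 * R ^ (ε₀ / 2) := by
    refine (e1.trans hn2).trans ?_
    gcongr
  have e8 : R ^ (ε₀ / 2) * R ^ (ε₀ / 2) = R ^ ε₀ := by
    rw [← Real.rpow_add hR0]; congr 1; ring
  have h1 : ((n + 1) ^ 2 * M ^ 4) ^ 2 ≤ (R ^ ε₀) ^ 2 := by
    calc ((n + 1) ^ 2 * M ^ 4) ^ 2 ≤ ((C9 * R ^ (ε₀ / 2)) * M ^ 4) ^ 2 := by gcongr
      _ = C9 ^ 2 * M ^ 8 * (R ^ (ε₀ / 2) * R ^ (ε₀ / 2)) := by ring
      _ ≤ C * M ^ 8 * (R ^ (ε₀ / 2) * R ^ (ε₀ / 2)) := by gcongr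
      _ = (C * M ^ 8) * R ^ ε₀ := by rw [e8]
      _ ≤ R ^ ε₀ * R ^ ε₀ := by gcongr
      _ = _ := by ring
  exact le_of_sq_le_sq h1 (by positivity)

theorem one_le_exp {p : ℕ} {B P : ℝ} (hB : 2 ≤ B) (hP : 1 ≤ P) (h : B * P ≤ 2 ^ p) :
    1 ≤ p := by
  by_contra h'
  have h0 : p = 0 := by omega
  rw [h0, pow_zero] at h
  nlinarith

theorem one_le_lab {n₁ p : ℕ} (h1 : 1 ≤ n₁) (h2 : 1 ≤ p) :
    1 ≤ n₁ * (p + 1) ^ 2 * (4 * p ^ 2) := by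
  have h3 : 0 < n₁ := h1
  have h4 : 0 < p := h2
  exact Nat.succ_le_of_lt (by positivity)

/-- number of circles -/
theorem small9 {R ε₁ θ C C9 : ℝ} {n n₁ p : ℕ} (hR : 1 ≤ R) (hC9 : 1 ≤ C9) (hC : 4 * C9 ≤ C)
    (hθ : θ ≤ ε₁) (hn2 : ((p : ℝ) + 1) ^ 21 ≤ C9 * R ^ θ) (hn : C * R ^ ε₁ * n₁ ≤ n) :
    n₁ * (p + 1) ^ 2 * (4 * p ^ 2) ≤ n := by
  have hR0 : 0 < R := by linarith
  have hp : (0 : ℝ) ≤ p := Nat.cast_nonneg p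
  have e1 : ((p : ℝ) + 1) ^ 4 ≤ ((p : ℝ) + 1) ^ 21 :=
    pow_le_pow_right₀ (by linarith) (by norm_num)
  have e6 : R ^ θ ≤ R ^ ε₁ := Real.rpow_le_rpow_of_exponent_le hR hθ
  have e7 : ((p : ℝ) + 1) ^ 4 ≤ C9 * R ^ ε₁ := by
    refine (e1.trans hn2).trans ?_
    gcongr
  have h1 : ((n₁ * (p + 1) ^ 2 * (4 * p ^ 2) : ℕ) : ℝ) ≤ (n : ℝ) := by
    refine le_trans ?_ hn
    push_cast
    calc (n₁ : ℝ) * ((p : ℝ) + 1) ^ 2 * (4 * (p : ℝ) ^ 2)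
        ≤ (n₁ : ℝ) * ((p : ℝ) + 1) ^ 2 * (4 * ((p : ℝ) + 1) ^ 2) := by
          gcongr; linarith
      _ = 4 * ((p : ℝ) + 1) ^ 4 * n₁ := by ring
      _ ≤ 4 * (C9 * R ^ ε₁) * n₁ := by gcongr
      _ = (4 * C9) * R ^ ε₁ * n₁ := by ring
      _ ≤ C * R ^ ε₁ * n₁ := by gcongr
  exact_mod_cast h1

/-- radius of the caps -/
theorem small10 {R κ ρ K CB C δ : ℝ} (hR : 1 ≤ R) (hκ : κ ≤ 3 / 8) (hρ : 0 < ρ) (hK : 1 ≤ K)
    (hCB : 1 ≤ CB) (hC : 1 ≤ C) (hδ : 0 < δ) (h1 : (1000 * CB) * K ^ 4 * ρ ≤ 1)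
    (h2 : C * sR R ≤ R ^ (-δ) * ρ) : (1 + κ) * ρ + sR R ≤ 1 / (400 * (CB * K ^ 4)) := by
  have hR0 : 0 < R := by linarith
  have hs : 0 ≤ sR R := by unfold sR; positivity
  have e1 : R ^ (-δ) ≤ 1 := Real.rpow_le_one_of_one_le_of_nonpos hR (by linarith)
  have e2 : sR R ≤ ρ := by
    have a1 : 1 * sR R ≤ C * sR R := by gcongr
    have a2 : R ^ (-δ) * ρ ≤ 1 * ρ := by gcongr
    linarith
  have e3 : (1 + κ) * ρ ≤ (11 / 8) * ρ := by gcongr; linarith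
  have hP : 0 < CB * K ^ 4 := by positivity
  rw [le_div_iff₀ (by positivity)]
  calc ((1 + κ) * ρ + sR R) * (400 * (CB * K ^ 4)) ≤ (11 / 8 * ρ + ρ) * (400 * (CB * K ^ 4)) := by
        gcongr
    _ = 950 * CB * K ^ 4 * ρ := by ring
    _ ≤ (1000 * CB) * K ^ 4 * ρ := by
        have : 0 ≤ 50 * (CB * K ^ 4 * ρ) := by positivity
        linarith
    _ ≤ 1 := h1

/-! ### monotonicity -/

theorem Arr_mono {ι : Type} {L : ℕ} {κ κ' R A ρ : ℝ} {I : Finset ι} {c : ι → E 2}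
    {G : ι → Z 2 → ℂ} (h : κ ≤ κ') (hR : 0 < R) (hκ : κ ≤ 1 / 2) (hρ : 0 ≤ ρ)
    (hG : Arr L κ R A ρ I c G) : Arr L κ' R A ρ I c G := fun k hk =>
  ⟨Cls_mono h hR hκ (hG k hk).1, fun ζ hζ => ((hG k hk).2 ζ hζ).trans (by gcongr)⟩

theorem BdB_mono {L : ℕ} {κ κ' R Λ K ρ M g : ℝ} {n : ℕ} (h : κ ≤ κ') (hR : 0 < R)
    (hκ : κ ≤ 1 / 2) (hρ : 0 ≤ ρ) (hB : BdB L κ' R Λ K ρ M n g) : BdB L κ R Λ K ρ M n g := by
  intro ι I c A H G X hA hH hΛ hI hc hG hX hXH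
  exact hB ι I c A H G X hA hH hΛ hI hc (Arr_mono h hR hκ hρ hG) hX hXH

/-- the most frequent value -/
theorem popular {α β : Type} [DecidableEq β] (X : Finset α) (J : Finset β) (f : α → β)
    (hf : ∀ x ∈ X, f x ∈ J) (hX : X.Nonempty) :
    ∃ t ∈ J, (X.card : ℝ) ≤ J.card * (X.filter (fun x => f x = t)).card := by
  obtain ⟨x, hx⟩ := hX
  have hJ : J.Nonempty := ⟨f x, hf x hx⟩
  by_contra hcon
  push Not at hcon
  have h1 : (X.card : ℝ) = ∑ t ∈ J, ((X.filter (fun x => f x = t)).card : ℝ) := by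
    rw [← Nat.cast_sum]
    exact_mod_cast Finset.card_eq_sum_card_fiberwise (f := f) (s := X) (t := J) hf
  have h2 : (J.card : ℝ) * X.card = ∑ t ∈ J, (J.card : ℝ) * (X.filter (fun x => f x = t)).card := by
    rw [← Finset.mul_sum, ← h1]
  have h3 : ∑ t ∈ J, (J.card : ℝ) * (X.filter (fun x => f x = t)).card <
      ∑ _t ∈ J, (X.card : ℝ) := Finset.sum_lt_sum_of_nonempty hJ hcon
  rw [← h2, Finset.sum_const, nsmul_eq_mul] at h3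
  exact lt_irrefl _ h3

/-! ### the pigeonholes -/

open Classical in
/-- the three pigeonholes for an array -/
theorem chain (hPG2 : T_PG2) (hLB1 : T_LB1) (hLB3 : T_LB3) (hBRM : T_BRM) {ι : Type} {N : ℕ}
    {β : E 2 → ℂ} {ψ : Z 2 → ℝ} {R r δ K : ℝ} {I : Finset ι} {c : ι → E 2}
    {G : ι → Z 2 → ℂ} (S : ι → Finset (Pk 2)) (p n₁ : ℕ) (a₀ H : ℝ) (X : Finset (Z 2))
    (ha₀ : 0 < a₀) (hH : 0 < H) (hp : 1 ≤ p) (hn₁ : 1 ≤ n₁)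
    (hSn : ∀ j ∈ I, (S j).card ≤ 2 ^ p) (hXn : X.card ≤ 2 ^ p)
    (hal : ∀ j ∈ I, ∀ W ∈ S j, al N β R δ (G j) W ≤ 2 ^ p * a₀)
    (hX1 : ∀ z ∈ X, ∀ j ∈ I, ∀ S' ⊆ S j, (∀ W ∈ S', al N β R δ (G j) W ≤ a₀) →
      ∑ W ∈ S', ‖Fp β ψ R δ (G j) W z‖ ≤ H / 2)
    (hX2 : ∀ z ∈ X, ∀ j ∈ I, ∀ S' ⊆ S j,
      (∀ W ∈ S', ¬ Inc R δ (tb R W) (cb (Real.sqrt R) z)) →
      ∑ W ∈ S', ‖Fp β ψ R δ (G j) W z‖ ≤ H / (8 * (p : ℝ) ^ 2) / 2)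
    (hXH : ∀ z ∈ X, Brm K (n₁ * (p + 1) ^ 2 * (4 * p ^ 2)) H I c fun j =>
      ∑ W ∈ S j, Fp β ψ R δ (G j) W z) :
    ∃ (S' : ι → Finset (Pk 2)) (a : ℝ) (b l k ν : ℕ) (QQ : Finset (Zi 2)) (X' : Finset (Z 2)),
      X' ⊆ X ∧ QQ ⊆ X.image (cb (Real.sqrt R)) ∧
      (X.card : ℝ) ≤ 4 * ((p : ℝ) + 1) ^ 5 * X'.card ∧
      (∀ z ∈ X', Brm K n₁ (H / (16 * ((p : ℝ) + 1) ^ 4)) I c fun j =>
        ∑ W ∈ SB QQ R r δ l k (S' j) (bl R r (cb (Real.sqrt R) z)), Fp β ψ R δ (G j) W z) ∧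
      (∀ j, S' j ⊆ S j) ∧ a₀ ≤ a ∧ 1 ≤ b ∧
      (∀ j ∈ I, ∀ W ∈ S' j, a ≤ al N β R δ (G j) W ∧ al N β R δ (G j) W ≤ 2 * a) ∧
      (∀ j ∈ I, ∀ W ∈ S' j, b ≤ ((S' j).filter (fun W' => tb R W' = tb R W)).card ∧
          ((S' j).filter (fun W' => tb R W' = tb R W)).card ≤ 2 * b) ∧
      1 ≤ ν ∧ (ν : ℝ) * QQ.card ≤ ((p : ℝ) + 1) ^ 2 * X'.card ∧
      (∀ q, (X'.filter (fun z => cb (Real.sqrt R) z = q)).card ≤ 2 * ν) ∧
      ∀ z ∈ X', cb (Real.sqrt R) z ∈ QQ := by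
  have hp1 : (1 : ℝ) ≤ p := by exact_mod_cast hp
  have hp0 : (0 : ℝ) < p := by linarith
  -- first
  obtain ⟨S', X₁, a, b, g1, hX₁, g3, g4, g5, g6, g7, g8⟩ := hLB1 ι (Pk 2) (Z 2) (Pk 2) K
    (n₁ * (p + 1) ^ 2) p I c S X (fun j W z => Fp β ψ R δ (G j) W z)
    (fun j W => al N β R δ (G j) W) (tb R) a₀ H ha₀ hH hp hSn hal hX1 hXH
  -- second
  obtain ⟨X₂, ν, hX₂, hν, hc₂, hν1, hν2⟩ := hPG2 (Z 2) (Zi 2) p X₁ (cb (Real.sqrt R))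
    ((Finset.card_le_card hX₁).trans hXn)
  set QQ := X₂.image (cb (Real.sqrt R)) with hQQ
  have hQn : QQ.card ≤ 2 ^ p :=
    Finset.card_image_le.trans ((Finset.card_le_card (hX₂.trans hX₁)).trans hXn)
  -- third
  obtain ⟨l, k, X₃, hX₃, hc₃, h3⟩ := hLB3 ι K n₁ p R r δ (H / (8 * (p : ℝ) ^ 2)) QQ I c S' X₂
    (fun j W z => Fp β ψ R δ (G j) W z) (by positivity) hQn
    (fun z hz => Finset.mem_image_of_mem _ hz)
    (fun z hz j hj T hT hW => hX2 z (hX₁ (hX₂ hz)) j hj T (hT.trans (g1 j)) hW)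
    (fun z hz => g6 z (hX₂ hz))
  have c1 : (X.card : ℝ) ≤ 4 * (p : ℝ) ^ 2 * X₁.card := by exact_mod_cast g5
  have c2 : (X₁.card : ℝ) ≤ ((p : ℝ) + 1) * X₂.card := by exact_mod_cast hc₂
  have c3 : (X₂.card : ℝ) ≤ ((p : ℝ) + 1) ^ 2 * X₃.card := by exact_mod_cast hc₃
  refine ⟨S', a, b, l, k, ν, QQ, X₃, (hX₃.trans hX₂).trans hX₁,
    Finset.image_subset_image (hX₂.trans hX₁), ?_, ?_, g1, g3, g4, g7, ?_, hν, ?_, ?_, ?_⟩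
  · calc (X.card : ℝ) ≤ 4 * (p : ℝ) ^ 2 * X₁.card := c1
      _ ≤ 4 * ((p : ℝ) + 1) ^ 2 * (((p : ℝ) + 1) * (((p : ℝ) + 1) ^ 2 * X₃.card)) := by
          gcongr
          · linarith
          · refine c2.trans ?_
            gcongr
      _ = 4 * ((p : ℝ) + 1) ^ 5 * X₃.card := by ring
  · intro z hz
    refine hBRM ι K _ _ n₁ n₁ I c _ _ hn₁ le_rfl ?_ (fun _ _ => le_rfl) (h3 z hz)
    rw [div_div]
    apply div_le_div_of_nonneg_left hH.le (by positivity)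
    calc 8 * (p : ℝ) ^ 2 * (2 * ((p : ℝ) + 1) ^ 2)
        ≤ 8 * ((p : ℝ) + 1) ^ 2 * (2 * ((p : ℝ) + 1) ^ 2) := by gcongr; linarith
      _ = 16 * ((p : ℝ) + 1) ^ 4 := by ring
  · intro j hj W hW
    have h := g8 j hj W hW
    convert h
  · have h1 : (QQ.card : ℝ) * ν ≤ X₂.card := by
      refine card_tb X₂ (cb (Real.sqrt R)) ν (fun z hz => ?_)
      refine Nat.cast_le.2 (le_trans (hν1 z hz) (le_of_eq ?_))
      congr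
    calc (ν : ℝ) * QQ.card = QQ.card * ν := by ring
      _ ≤ X₂.card := h1
      _ ≤ ((p : ℝ) + 1) ^ 2 * X₃.card := c3
  · intro q
    have h1 := hν2 q
    refine le_trans (Finset.card_le_card ?_) h1
    intro z hz
    simp only [Finset.mem_filter] at hz ⊢
    exact ⟨hX₃ hz.1, hz.2⟩
  · intro z hz
    exact Finset.mem_image_of_mem _ (hX₃ hz)

/-- the planks of an array -/
theorem planks {ι : Type} {L : ℕ} {β : E 2 → ℂ} {ψ : Z 2 → ℝ} {δ ρ CD κ R A H : ℝ}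
    {I : Finset ι} {c : ι → E 2} {G : ι → Z 2 → ℂ} {z₀ : Z 2} {X : Finset (Z 2)}
    (hβ : IsPU β) (hκ : κ ≤ 3 / 8) (hR1 : 1 ≤ R) (hA : 0 < A) (hAH : A ≤ H)
    (hCD : 0 < CD) (hR : 2 * CD / 1 ≤ R) (hG : Arr L κ R A ρ I c G)
    (hXz : ∀ z ∈ X, ‖z - z₀‖ ≤ R)
    (hD : ∀ G' : Z 2 → ℂ, Cls L κ R A G' → ∃ S : Finset (Pk 2),
      (∀ W ∈ S, W.1 ∈ Ks 2 (sR R) ∧ ∃ z, ‖z - z₀‖ ≤ R ∧ near R δ W z) ∧
      (S.card : ℝ) ≤ CD * R ^ (2 * (((2 : ℕ) : ℝ) + 2)) ∧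
      ∀ z, ‖z - z₀‖ ≤ R → ‖TF G' z - ∑ W ∈ S, Fp β ψ R δ G' W z‖ ≤ CD * A * R ^ (-1 : ℝ)) :
    ∃ S : ι → Finset (Pk 2), ∀ j ∈ I,
      (∀ W ∈ S j, W.1 ∈ Ks 2 (sR R) ∧ (∃ z, ‖z - z₀‖ ≤ R ∧ near R δ W z) ∧
        ‖ctr (sR R) W.1‖ ≤ 3 ∧ ‖ctr (sR R) W.1 - c j‖ ≤ (1 + κ) * ρ + sR R) ∧
      ((S j).card : ℝ) ≤ CD * R ^ (2 * (((2 : ℕ) : ℝ) + 2)) ∧
      ∀ z ∈ X, H ≤ ‖TF (G j) z‖ → H / 2 ≤ ‖∑ W ∈ S j, Fp β ψ R δ (G j) W z‖ := by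
  classical
  have h : ∀ j, ∃ S : Finset (Pk 2), j ∈ I →
      (∀ W ∈ S, W.1 ∈ Ks 2 (sR R) ∧ (∃ z, ‖z - z₀‖ ≤ R ∧ near R δ W z) ∧
        ‖ctr (sR R) W.1‖ ≤ 3 ∧ ‖ctr (sR R) W.1 - c j‖ ≤ (1 + κ) * ρ + sR R) ∧
      (S.card : ℝ) ≤ CD * R ^ (2 * (((2 : ℕ) : ℝ) + 2)) ∧
      ∀ z ∈ X, H ≤ ‖TF (G j) z‖ → H / 2 ≤ ‖∑ W ∈ S, Fp β ψ R δ (G j) W z‖ := by
    intro j
    by_cases hj : j ∈ I
    · have hGj := hG j hj
      obtain ⟨S, h1, h2, h3⟩ := famA (K := ((1 + κ) * ρ)⁻¹) (c := c j)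
        (X := X.filter (fun z => H ≤ ‖TF (G j) z‖)) hβ hκ hR1 hGj.1
        (fun ζ hζ => by rw [one_div, inv_inv]; exact hGj.2 ζ hζ)
        (fun z hz => hXz z (Finset.mem_filter.1 hz).1) (fun z hz => (Finset.mem_filter.1 hz).2)
        (small1 (b₀ := 1) (by linarith) one_pos hA (by linarith) hCD hR) (hD (G j) hGj.1)
      rw [one_div, inv_inv] at h1
      exact ⟨S, fun _ => ⟨h1, h2, fun z hz hH => h3 z (Finset.mem_filter.2 ⟨hz, hH⟩)⟩⟩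
    · exact ⟨∅, fun h => absurd h hj⟩
  choose S hS using h
  exact ⟨S, hS⟩

open Classical in
theorem pf_BALL (hDCP : T_DCP) (hTLS : T_TLS) (hAMU : T_AMU) (hAEN : T_AEN) (hENB : T_ENB)
    (hPG2 : T_PG2) (hLB1 : T_LB1) (hLB3 : T_LB3) (hOEN : T_OENB) (hBR1 : T_BR1)
    (hBRM : T_BRM) (hPSX : T_PSX) (hLWX : T_LWX) (hCBN : T_CBN) (hWT3 : T_WT3) : T_BALL := by
  obtain ⟨CB, hCB, hBR⟩ := hBR1
  refine ⟨1000 * CB, by linarith, ?_⟩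
  intro ε₀ c₀ δ₀ L₀ L β δ ε₁ hε₀ hε₀' hc₀ hc₀' hδ₀ hB2 hL₀ hL hβ hδ hδ' hε₁
  have hδ4 : δ ≤ 1 / 4 := by linarith
  have m4 : (((2 : ℕ) : ℝ) + 2) = 4 := by norm_num
  have m8 : 2 * (((2 : ℕ) : ℝ) + 2) = 8 := by norm_num
  have m2 : (((2 : ℕ) : ℝ) + 2) / 2 = 2 := by norm_num
  obtain ⟨Ψ, ψ, hΨ⟩ := hPSX 2
  obtain ⟨Ξ, χ, hΞ⟩ := hLWX 2
  obtain ⟨CD, hCD, hD⟩ := hDCP 2 L β Ψ ψ δ 1 hβ hΨ hδ hδ4
  obtain ⟨CE, hCE, hE⟩ := hENB 2 L 5 β δ hβ hδ (by norm_num)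
  obtain ⟨N₀, hN₀⟩ := hB2 L β Ψ ψ δ 1 (max CD 1) hL₀ hβ hΨ hδ hδ' one_pos (le_max_right _ _)
  obtain ⟨N, hN1, hN2⟩ : ∃ N : ℕ, N₀ ≤ N ∧ 10 ≤ N := ⟨_, le_max_left _ _, le_max_right _ _⟩
  obtain ⟨CT, hCT, hT⟩ := hN₀ N hN1
  clear hN₀
  obtain ⟨CO, hCO, hO⟩ := hOEN L N β Ψ Ξ ψ χ δ ε₀ hβ hΨ hΞ hδ hδ4 hε₀ (by linarith) hL hN2
  obtain ⟨CA, hA'⟩ := hAEN 2 N 5 β δ hβ hδ.le (by omega)
  obtain ⟨C7, hC7, h7⟩ := hTLS 2 L N β Ψ ψ δ 1 hβ hΨ hδ hδ4 (by omega)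
  obtain ⟨C8, hC8, h8⟩ := hAMU 2 L N β δ hβ hδ.le (by omega)
  obtain ⟨CS, hCS, hS⟩ := card_sep (m := 2) hWT3
  have hb₁ : 0 < 1 / (4 * C7) := by positivity
  have hb₂ : 0 < C8 / (1 / (4 * C7)) := by positivity
  obtain ⟨B', hB'1, hB'2, hB'3, hB'4, hB'5⟩ : ∃ B' : ℝ, 1 ≤ B' ∧ CD ≤ B' ∧
      C8 / (1 / (4 * C7)) ≤ B' ∧ CS ≤ B' ∧ 2 ≤ B' :=
    ⟨CD + C8 / (1 / (4 * C7)) + CS + 2, by linarith, by linarith, by linarith, by linarith,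
      by linarith⟩
  obtain ⟨θ, hθ0, hθ1, hθ2, hθ3, hθ4⟩ : ∃ θ : ℝ, 0 < θ ∧ θ ≤ ε₁ ∧ θ ≤ δ / 2 ∧ θ ≤ ε₀ / 2 ∧
      θ ≤ 1 / 2 := by
    have t1 := min_le_left (min ε₁ (δ / 2)) (ε₀ / 2)
    have t2 := min_le_right (min ε₁ (δ / 2)) (ε₀ / 2)
    have t3 := min_le_left ε₁ (δ / 2)
    have t4 := min_le_right ε₁ (δ / 2)
    exact ⟨min (min ε₁ (δ / 2)) (ε₀ / 2), lt_min (lt_min hε₁ (by linarith)) (by linarith),
      by linarith, by linarith, by linarith, by linarith⟩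
  obtain ⟨C9, hC9, h9⟩ := logn (2 * (((2 : ℕ) : ℝ) + 2)) B' θ (by positivity) hB'1 hθ0 21
  have hCA0 : (0 : ℝ) ≤ CA := CA.2
  obtain ⟨D, hD1, hD2⟩ : ∃ D : ℝ, 1 ≤ D ∧ 4 * (CA : ℝ) * CE ≤ D := by
    have : 0 ≤ 4 * (CA : ℝ) * CE := by positivity
    exact ⟨4 * (CA : ℝ) * CE + 1, by linarith, by linarith⟩
  obtain ⟨K1, hK1, k1⟩ := big CO ε₀ hε₀
  obtain ⟨K2, hK2, k2⟩ := big (2 * CD / 1) 1 one_pos
  obtain ⟨K3, hK3, k3⟩ := big (32 * C9 * C7) (1 / 2) (by norm_num)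
  obtain ⟨K4, hK4, k4⟩ := big (CT + 8 * CO) δ hδ
  obtain ⟨K5, hK5, k5⟩ := big (32 * D * C9) (δ / 2) (by linarith)
  have a1 : (0 : ℝ) ≤ 2 ^ 22 * C9 * CO * CT * CA := by positivity
  have a2 : (0 : ℝ) ≤ 2 ^ 24 * C9 * CT * CA * D ^ 2 := by positivity
  have a3 : (0 : ℝ) ≤ C9 ^ 2 := by positivity
  obtain ⟨C, hC1, q1, q2, q3, q4, q5, q6, q7, q8, q9, q10, q11⟩ : ∃ C : ℝ, 1 ≤ C ∧ K1 ≤ C ∧
      K2 ≤ C ∧ K3 ≤ C ∧ K4 ≤ C ∧ K5 ≤ C ∧ CO ≤ C ∧ CB ≤ C ∧ 4 * C9 ≤ C ∧ C9 ^ 2 ≤ C ∧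
      2 ^ 22 * C9 * CO * CT * CA ≤ C ∧ 2 ^ 24 * C9 * CT * CA * D ^ 2 ≤ C :=
    ⟨K1 + K2 + K3 + K4 + K5 + CO + CB + 4 * C9 + C9 ^ 2 + 2 ^ 22 * C9 * CO * CT * CA +
      2 ^ 24 * C9 * CT * CA * D ^ 2, by linarith, by linarith, by linarith, by linarith,
      by linarith, by linarith, by linarith, by linarith, by linarith, by linarith,
      by linarith, by linarith⟩
  obtain ⟨hcb, hinc, -⟩ := hCBN 2
  clear hDCP hTLS hAMU hAEN hENB hOEN hB2 hPSX hLWX hCBN hWT3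
  refine ⟨C, hC1, ?_⟩
  intro κ R Λ K ρ M g A H n n₁ ι I c G z₀ X hκ0 hκ hRC hK hρ hM hg hA hAH hKR hKρ hM8 hM8' hsR
    hn₁ hn hBd hΛ hIM hc hG hX hXz hXH
  have hR1 : 1 ≤ R := by linarith
  have hR0 : 0 < R := by linarith
  have hH : 0 < H := by linarith
  have hκ' : κ ≤ 1 / 2 := by linarith
  have r1 := k1 R (by linarith)
  have r2 := k2 R (by linarith)
  rw [Real.rpow_one] at r2
  have r3 := k3 R (by linarith)
  have r4 := k4 R (by linarith)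
  have r5 := k5 R (by linarith)
  -- planks
  obtain ⟨S0, hS0⟩ := planks hβ hκ hR1 hA hAH hCD r2 hG hXz
    (fun G' hG' => hD κ R A G' z₀ hκ0 hκ' hR1 hA hG')
  obtain ⟨p, hp1, hp3⟩ := h9 R hR1
  have hP1 : 1 ≤ R ^ (2 * (((2 : ℕ) : ℝ) + 2)) := Real.one_le_rpow hR1 (by positivity)
  have hp : 1 ≤ p := one_le_exp hB'5 hP1 hp1
  have hp1' : (1 : ℝ) ≤ p := by exact_mod_cast hp
  have hp0 : (0 : ℝ) ≤ p := by linarith
  obtain ⟨a₀, ha₀⟩ : ∃ a₀ : ℝ, a₀ = 1 / (4 * C7) * A * R ^ (-(((2 : ℕ) : ℝ) + 2)) := ⟨_, rfl⟩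
  have ha₀0 : 0 < a₀ := by rw [ha₀]; positivity
  have hSn : ∀ j ∈ I, (S0 j).card ≤ 2 ^ p := by
    intro j hj
    have h1 : ((S0 j).card : ℝ) ≤ 2 ^ p := by
      refine ((hS0 j hj).2.1.trans ?_).trans hp1
      gcongr
    exact_mod_cast h1
  have hXn : X.card ≤ 2 ^ p := by
    have h1 : (X.card : ℝ) ≤ 2 ^ p := by
      refine ((hS R z₀ X hR1 hX hXz).trans ?_).trans hp1
      gcongr
    exact_mod_cast h1
  have hal : ∀ j ∈ I, ∀ W : Pk 2, al N β R δ (G j) W ≤ 2 ^ p * a₀ := fun j hj W =>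
    (h8 κ R A (G j) W hκ0 hκ' hR1 hA (hG j hj).1).1.trans
      (small5 hR1 hA one_pos hC7 hC8 ha₀ hB'3 hp1)
  have hnn : n₁ * (p + 1) ^ 2 * (4 * p ^ 2) ≤ n := small9 hR1 hC9 q8 hθ1 hp3 hn
  have hpos : 1 ≤ n₁ * (p + 1) ^ 2 * (4 * p ^ 2) := one_le_lab hn₁ hp
  obtain ⟨S', a, b, l, k, ν, QQ, X', hX'X, hQQ, hXc, hX'H, hS'S, ha, hb, hS'a, hS'b, hν, hνQ,
    hνX, hX'Q⟩ := chain hPG2 hLB1 hLB3 hBRM (N := N) (β := β) (ψ := ψ) (R := R)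
      (r := R ^ (1 - ε₀)) (δ := δ) (K := K) (I := I) (c := c) (G := G) S0 p n₁ a₀ (H / 2) X
      ha₀0 (by positivity) hp hn₁ hSn hXn (fun j hj W _ => hal j hj W)
      (fun z _ j hj T hT hTa => ((h7 κ R A (G j) T z hκ0 hκ' hR1 hA (hG j hj).1
        (fun W hW => ((hS0 j hj).1 W (hT hW)).1)).2 a₀ ha₀0.le hTa).trans
          (small4 hR1 one_pos (by linarith) hC7 ha₀))
      (fun z _ j hj T hT hTa => ((h7 κ R A (G j) T z hκ0 hκ' hR1 hA (hG j hj).1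
        (fun W hW => ((hS0 j hj).1 W (hT hW)).1)).1
          (fun W hW hnear => hTa W hW (hinc R δ W z hR1 hδ.le hnear))).trans
          (small2 hR1 hA hAH hC7 hC9 hθ4 r3 hp1' hp3))
      (fun z hz V hV => by
        obtain ⟨j, hj, h1, h2⟩ := hBRM ι K H H n _ I c _ _
          hpos hnn le_rfl (fun _ _ => le_rfl) (hXH z hz) V hV
        exact ⟨j, hj, (hS0 j hj).2.2 z hz h1, h2⟩)
  obtain ⟨H', hH'⟩ : ∃ H' : ℝ, H' = H / (32 * ((p : ℝ) + 1) ^ 4) := ⟨_, rfl⟩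
  have hH'0 : 0 < H' := by rw [hH']; positivity
  have hHH' : H = 32 * ((p : ℝ) + 1) ^ 4 * H' := by rw [hH']; field_simp
  have hH'2 : H / 2 / (16 * ((p : ℝ) + 1) ^ 4) = H' := by rw [hH']; field_simp; ring
  rw [hH'2] at hX'H
  have hX's : Sep X' := fun z hz z' hz' => hX z (hX'X hz) z' (hX'X hz')
  clear hal h7 hSn hXn h9 hPG2 hLB1 hLB3 hH'2
  -- energies
  have hEi : ∀ j ∈ I, Er 5 β R δ (G j) z₀ ≤
      ENNReal.ofReal (CE * R ^ (lo 2 * δ) * (A ^ 2 * R ^ (4 : ℝ))) := by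
    intro j hj
    have h := hE κ R A (G j) z₀ hκ0 hκ' hR1 hA (hG j hj).1
    rwa [m4] at h
  have hEf : ∀ j ∈ I, Er 5 β R δ (G j) z₀ ≠ ⊤ := fun j hj =>
    ne_top_of_le_ne_top ENNReal.ofReal_ne_top (hEi j hj)
  obtain ⟨e, he⟩ : ∃ e : ℝ, e = (∑ j ∈ I, Er 5 β R δ (G j) z₀).toReal := ⟨_, rfl⟩
  have he' : e = ∑ j ∈ I, (Er 5 β R δ (G j) z₀).toReal := by
    rw [he, ENNReal.toReal_sum hEf]
  have he0 : 0 ≤ e := by rw [he]; exact ENNReal.toReal_nonneg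
  have hej : ∀ j ∈ I, (Er 5 β R δ (G j) z₀).toReal ≤ e := by
    intro j hj
    rw [he']
    exact Finset.single_le_sum (f := fun j => (Er 5 β R δ (G j) z₀).toReal)
      (fun _ _ => ENNReal.toReal_nonneg) hj
  have hEn : ∀ j ∈ I, ∑ W ∈ S' j, al N β R δ (G j) W ^ 2 * R ^ 2 ≤
      CA * (Er 5 β R δ (G j) z₀).toReal := by
    intro j hj
    have h := energy (S := S' j) hR0 (hEf j hj)
      (fun W _ => (h8 κ R A (G j) W hκ0 hκ' hR1 hA (hG j hj).1).2)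
      (hA' R (G j) z₀ (S' j) hR1 (hG j hj).1.1
        (fun ζ hζ => Rg_mono hκ' (by positivity) hκ' ((hG j hj).1.2.1 ζ hζ)) (fun W hW => by
          have := (hS0 j hj).1 W (hS'S j hW)
          exact ⟨this.1, this.2.1⟩))
    rw [m2] at h
    simpa only [Real.rpow_two] using h
  rw [← he]
  -- the two cases
  by_cases hk : CT ≤ (2 : ℝ) ^ k
  · -- two ends
    rcases Finset.eq_empty_or_nonempty X' with hemp | hne
    · have h0 : (X.card : ℝ) = 0 := by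
        rw [hemp] at hXc
        have a1 : (0 : ℝ) ≤ X.card := Nat.cast_nonneg _
        simp only [Finset.card_empty, Nat.cast_zero, mul_zero] at hXc
        linarith
      rw [h0, zero_mul]
      positivity
    -- the most frequent 4-tuple
    have hsel : ∀ z : Z 2, ∃ t : Fin 4 → ι, z ∈ X' → (∀ i, t i ∈ I ∧
        H' ≤ ‖∑ W ∈ SB QQ R (R ^ (1 - ε₀)) δ l k (S' (t i))
          (bl R (R ^ (1 - ε₀)) (cb (Real.sqrt R) z)), Fp β ψ R δ (G (t i)) W z‖) ∧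
        Ind (CB * K ^ 4)⁻¹ fun i => c (t i) := by
      intro z
      by_cases hz : z ∈ X'
      · obtain ⟨t, h1, h2⟩ := hBR ι K H' n₁ I c _ hK hn₁
          (fun k hk => (hc k hk).trans (by norm_num)) (hX'H z hz)
        exact ⟨t, fun _ => ⟨h1, h2⟩⟩
      · obtain ⟨z₁, hz₁⟩ := hne
        obtain ⟨t, -, -⟩ := hBR ι K H' n₁ I c _ hK hn₁
          (fun k hk => (hc k hk).trans (by norm_num)) (hX'H z₁ hz₁)
        exact ⟨t, fun h => absurd h hz⟩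
    choose f hf using hsel
    obtain ⟨t, htI, hX'c⟩ := popular X' (Fintype.piFinset fun _ : Fin 4 => I) f
      (fun z hz => Fintype.mem_piFinset.2 fun i => ((hf z hz).1 i).1) hne
    rw [Fintype.mem_piFinset] at htI
    rw [Fintype.card_piFinset, Finset.prod_const, Finset.card_univ, Fintype.card_fin] at hX'c
    push_cast at hX'c
    obtain ⟨Y, hY⟩ : ∃ Y : Finset (Z 2), Y = X'.filter (fun z => f z = t) := ⟨_, rfl⟩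
    rw [← hY] at hX'c
    have hYX : Y ⊆ X' := by rw [hY]; exact Finset.filter_subset _ _
    have hYt : ∀ z ∈ Y, f z = t := fun z hz => by
      rw [hY] at hz; exact (Finset.mem_filter.1 hz).2
    have hX'Y : (X'.card : ℝ) ≤ M ^ 4 * Y.card := by
      exact hX'c.trans (mul_le_mul_of_nonneg_right
        (pow_le_pow_left₀ (Nat.cast_nonneg _) hIM 4) (Nat.cast_nonneg _))
    have hX'0 : (0 : ℝ) < X'.card := by exact_mod_cast hne.card_pos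
    obtain ⟨z₁, hz₁⟩ : Y.Nonempty := by
      rw [Finset.nonempty_iff_ne_empty]
      intro h
      rw [h] at hX'Y
      simp only [Finset.card_empty, Nat.cast_zero, mul_zero] at hX'Y
      linarith
    have hInd : Ind (CB * K ^ 4)⁻¹ fun i => c (t i) := by
      have := (hf z₁ (hYX hz₁)).2
      rwa [hYt z₁ hz₁] at this
    have hYH : ∀ z ∈ Y, ∀ i, H' ≤ ‖∑ W ∈ SB QQ R (R ^ (1 - ε₀)) δ l k (S' (t i))
        (bl R (R ^ (1 - ε₀)) (cb (Real.sqrt R) z)), Fp β ψ R δ (G (t i)) W z‖ := by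
      intro z hz i
      have := ((hf z (hYX hz)).1 i).2
      rwa [hYt z hz] at this
    -- energies of the four functions
    obtain ⟨e4, he4⟩ : ∃ e4 : ℝ, e4 = ∑ i : Fin 4, (Er 5 β R δ (G (t i)) z₀).toReal := ⟨_, rfl⟩
    have he4i : ∀ i, (Er 5 β R δ (G (t i)) z₀).toReal ≤ e4 := by
      intro i
      rw [he4]
      exact Finset.single_le_sum (f := fun i => (Er 5 β R δ (G (t i)) z₀).toReal)
        (fun _ _ => ENNReal.toReal_nonneg) (Finset.mem_univ i)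
    have he4e : e4 ≤ 4 * e := by
      rw [he4]
      refine (Finset.sum_le_sum (fun i _ => hej (t i) (htI i))).trans (le_of_eq ?_)
      rw [Finset.sum_const, Finset.card_univ, Fintype.card_fin, nsmul_eq_mul]
      norm_num
    have he4E : e4 ≤ 4 * (CE * R ^ (lo 2 * δ) * (A ^ 2 * R ^ (4 : ℝ))) := by
      rw [he4]
      refine (Finset.sum_le_sum (fun i _ => ENNReal.toReal_le_of_le_ofReal (by positivity)
        (hEi (t i) (htI i)))).trans (le_of_eq ?_)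
      rw [Finset.sum_const, Finset.card_univ, Fintype.card_fin, nsmul_eq_mul]
      norm_num
    have hEn4 : ∀ i, ∑ W ∈ S' (t i), al N β R δ (G (t i)) W ^ 2 * R ^ 2 ≤ CA * e4 := fun i =>
      (hEn (t i) (htI i)).trans (mul_le_mul_of_nonneg_left (he4i i) hCA0)
    have hEnpos : 0 < (CA : ℝ) * e4 := by
      have h1 := hYH z₁ hz₁ 0
      obtain ⟨W, hW⟩ : (S' (t 0)).Nonempty := by
        rw [Finset.nonempty_iff_ne_empty]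
        intro h2
        have h3 : SB QQ R (R ^ (1 - ε₀)) δ l k (S' (t 0))
            (bl R (R ^ (1 - ε₀)) (cb (Real.sqrt R) z₁)) = ∅ := by
          rw [Finset.eq_empty_iff_forall_notMem]
          intro W hW
          have := (mem_SB.1 hW).1
          rw [h2] at this
          simp at this
        rw [h3] at h1
        simp only [Finset.sum_empty, norm_zero] at h1
        linarith
      refine lt_of_lt_of_le ?_ (hEn4 0)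
      have h4 : 0 < al N β R δ (G (t 0)) W :=
        lt_of_lt_of_le ha₀0 (ha.trans (hS'a (t 0) (htI 0) W hW).1)
      refine lt_of_lt_of_le (by positivity : 0 < al N β R δ (G (t 0)) W ^ 2 * R ^ 2)
        (Finset.single_le_sum (f := fun W => al N β R δ (G (t 0)) W ^ 2 * R ^ 2)
          (fun W _ => by positivity) hW)
    have hM4 : M ^ 4 ≤ R ^ (c₀ / 4) := by
      have e1 : M ^ 4 ≤ M ^ 8 := pow_le_pow_right₀ hM (by norm_num)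
      have e2 : M ^ 8 ≤ C * M ^ 8 := le_mul_of_one_le_left (by positivity) hC1
      linarith
    have hP : CB * K ^ 4 ≤ R ^ ε₀ := by
      refine le_trans ?_ hKR
      gcongr
    have hP1' : 1 ≤ CB * K ^ 4 := one_le_mul_of_one_le_of_one_le hCB (one_le_pow₀ hK)
    have hcap := small10 hR1 hκ hρ hK hCB hC1 hδ hKρ hsR
    have key := hT κ R (CB * K ^ 4) (D * A) H' (CA * e4) (fun i => G (t i)) (fun i => c (t i)) z₀
      (fun i => S' (t i)) a (b : ℝ) l k QQ (ν : ℝ) Y hκ0 hκ hR1 (by linarith) hP1' hP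
      (by positivity) hH'0 ?_ hEnpos
      (fun i => Cls_monoA hR0 hA.le (le_mul_of_one_le_left hA.le hD1) (hG (t i) (htI i)).1)
      (fun i => (hc (t i) (htI i)).trans (by norm_num)) hInd
      (fun z hz z' hz' => hX's z (hYX hz) z' (hYX hz'))
      (fun z hz => hXz z (hX'X (hYX hz))) ?_ ?_ (lt_of_lt_of_le ha₀0 ha) (by exact_mod_cast hb)
      ?_ hEn4 ?_ ?_ ?_ ?_ (fun z hz => hX'Q z (hYX hz)) ?_ hk hYH
    · have key2 : (X'.card : ℝ) * H' ^ (10 / 3 : ℝ) ≤ M ^ 4 * (CT * R ^ (-c₀) *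
          (D * A) ^ (4 / 3 : ℝ) * R ^ (1 / 3 : ℝ) * (CA * e4)) := by
        calc (X'.card : ℝ) * H' ^ (10 / 3 : ℝ) ≤ (M ^ 4 * Y.card) * H' ^ (10 / 3 : ℝ) := by
              gcongr
          _ = M ^ 4 * (Y.card * H' ^ (10 / 3 : ℝ)) := by ring
          _ ≤ _ := by gcongr
      refine (numX hp0 hH'0 (Nat.cast_nonneg _) hR0 (by linarith) hXc hHH' hp3 key2).trans ?_
      refine caseT hR1 hδ (by linarith) hg hA he0 (by linarith) (by linarith) hD1 hM4 hc₀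
        hEnpos.le ?_ q11 (by linarith)
      calc (CA : ℝ) * e4 ≤ CA * (4 * e) := by gcongr
        _ = 4 * CA * e := by ring
    · rw [hH']
      exact small3 hR1 hA hAH hD1 hC9 r5 hθ2 hp0 hp3
    · intro i W hW
      have h1 := (hS0 (t i) (htI i)).1 W (hS'S (t i) hW)
      have h2 := hS'a (t i) (htI i) W hW
      exact ⟨h1.1, h1.2.1, h1.2.2.1, h1.2.2.2.trans hcap, h2.1, h2.2⟩
    · intro i
      have h1 : ((S' (t i)).card : ℝ) ≤ (S0 (t i)).card := by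
        exact_mod_cast Finset.card_le_card (hS'S (t i))
      have h2 := (hS0 (t i) (htI i)).2.1
      rw [m8] at h2
      exact (h1.trans h2).trans (mul_le_mul_of_nonneg_right (le_max_left _ _) (by positivity))
    · intro i W hW
      have h1 := hS'b (t i) (htI i) W hW
      exact ⟨by exact_mod_cast h1.1, by exact_mod_cast h1.2⟩
    · exact small6 hR0 hCA0 hD1 hD2 (le_max_right _ _) he4E
    · exact lt_of_lt_of_le one_pos (by exact_mod_cast hν)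
    · have hs7 := small7 hR1 hC9 q9 hM8 hθ3 hp0 hp3
      calc (ν : ℝ) * QQ.card ≤ ((p : ℝ) + 1) ^ 2 * X'.card := hνQ
        _ ≤ ((p : ℝ) + 1) ^ 2 * (M ^ 4 * Y.card) := by gcongr
        _ = (((p : ℝ) + 1) ^ 2 * M ^ 4) * Y.card := by ring
        _ ≤ R ^ ε₀ * Y.card := mul_le_mul_of_nonneg_right hs7 (Nat.cast_nonneg _)
    · intro q
      have h1 : (Y.filter (fun z => cb (Real.sqrt R) z = q)).card ≤ 2 * ν :=
        (Finset.card_le_card (Finset.filter_subset_filter _ hYX)).trans (hνX q)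
      exact_mod_cast h1
    · intro q hq
      obtain ⟨z, hz, rfl⟩ := Finset.mem_image.1 (hQQ hq)
      have h := small8 hR1 (hcb (Real.sqrt R) z (by positivity)) (hXz z hz)
      rwa [m4] at h
  · -- one end
    rw [not_le] at hk
    have hRδ0 : 0 < R ^ δ := by positivity
    have hκO : κ + CO * R ^ (-δ) ≤ 1 / 2 := by
      have h1 : CO * R ^ (-δ) ≤ 1 / 8 := by
        rw [Real.rpow_neg hR0.le, ← div_eq_mul_inv, div_le_iff₀ hRδ0]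
        linarith
      linarith
    have hκO' : κ + CO * R ^ (-δ) ≤ κ + C * R ^ (-δ) := by gcongr
    have hsR0 : 0 ≤ sR R := by unfold sR; positivity
    have hΛ' : Λ * H' ≤ A * R := by
      rcases le_total 0 Λ with h | h
      · refine le_trans ?_ hΛ
        have h1 : H' ≤ H := by
          rw [hHH']
          refine le_mul_of_one_le_left hH'0.le ?_
          have : 1 ≤ ((p : ℝ) + 1) ^ 4 := one_le_pow₀ (by linarith)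
          linarith
        gcongr
      · have h1 : Λ * H' ≤ 0 := mul_nonpos_of_nonpos_of_nonneg h hH'0.le
        have h2 : 0 ≤ A * R := by positivity
        linarith
    have key := hO κ R A H' g Λ K ρ M n₁ ι I c G S' QQ l k X' hκ0 hκ hR1 (by linarith) r1 hA hH'0
      hg ((mul_le_mul_of_nonneg_right q6 hsR0).trans hsR) hΛ' hIM hc
      (BdB_mono hκO' (by positivity) hκO hρ.le hBd) hG hX's
      (fun j hj W hW => by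
        have h := (hS0 j hj).1 W (hS'S j hW)
        exact ⟨h.1, h.2.2.2⟩)
      (fun z hz => ⟨hX'Q z hz, hX'H z hz⟩)
    refine (numX hp0 hH'0 (Nat.cast_nonneg _) hR0 (by linarith) hXc hHH' hp3 key).trans ?_
    refine caseO hR1 hδ hθ1 hg hA he0 (by linarith) (by linarith) (by positivity) hk.le
      (Finset.sum_nonneg (fun j _ => Finset.sum_nonneg (fun W _ => by positivity))) ?_ q10
      (by linarith)
    rw [he', Finset.mul_sum]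
    exact Finset.sum_le_sum hEn

end Pool.Agent.H74.LB.BALL
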